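import Pool.Agent.Y192.FN.Tor
import Pool.Agent.TH182.TC.Core

/-!
Rational curves in projective covers give nonconstant maps from complex tori
(the composition with the Weierstrass function; construction of `TH152.CV.torus_of_split`).
-/

set_option autoImplicit false

namespace Pool.Agent.Y625.FN

open MvPolynomial Filter Topology Set
open scoped PeriodPair
open Pool.Agent.Y192.FN
open Pool.Agent.TH182.TC (hom hom_eval hom_zero eval_smul_of_homog infinite_range)

variable {n r : ℕ} {X : NDat n r} {m : ℕ}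

theorem aev (x : Fin (n + 1) → ℂ) (f : MvPolynomial (Fin (n + 1)) ℂ) : aeval x f = eval x f := rfl

theorem nsame_refl (a : (Fin (n + 1) → ℂ) × (Fin r → ℂ)) : NSame X m a a :=
  ⟨1, one_ne_zero, fun i => by rw [one_mul], fun j => by rw [one_pow, one_mul]⟩

theorem wt_mul (hd : ∀ j, X.e j ∣ m) (j : Fin r) : m * X.d j / X.e j * X.e j = m * X.d j :=
  Nat.div_mul_cancel ((hd j).mul_right _)

theorem eval_scale {f : MvPolynomial (Fin (n + 1)) ℂ} {d : ℕ} (hf : f.IsHomogeneous d) (c : ℂ)
    (u : Fin (n + 1) → ℂ) :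
    eval (fun i => (c * u i) ^ m) f = c ^ (m * d) * eval (fun i => u i ^ m) f := by
  have h := eval_smul_of_homog hf (c ^ m) (fun i => u i ^ m)
  rw [← pow_mul] at h
  rw [← h]
  congr 1
  have : (fun i => (c * u i) ^ m) = c ^ m • fun i => u i ^ m := by
    funext i
    rw [Pi.smul_apply, smul_eq_mul, mul_pow]
  rw [this]

theorem sol_scale (hd : ∀ j, X.e j ∣ m) (hG : X.G = 1) {u : Fin (n + 1) → ℂ} {v : Fin r → ℂ}
    (h : Sol X m u v) (c : ℂ) :
    Sol X m (fun i => c * u i) (fun j => c ^ (m * X.d j / X.e j) * v j) := by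
  refine ⟨fun f hf => ?_, fun j => ?_, ?_⟩
  · rw [aev, ← sum_homogeneousComponent f, map_sum]
    refine Finset.sum_eq_zero fun k _ => ?_
    rw [eval_scale (homogeneousComponent_isHomogeneous k f) c u]
    have := h.mem _ (X.hJ f hf k)
    rw [aev] at this
    rw [this, mul_zero]
  · have h1 := h.eqn j
    rw [aev] at h1
    rw [aev, mul_pow, ← pow_mul, wt_mul hd j, h1, eval_scale (X.hF j) c u]
  · rw [hG, map_one]
    exact one_ne_zero

theorem hom_smul (d : ℕ) (p : Polynomial ℂ) (c s t : ℂ) :
    hom d p (c * s) (c * t) = c ^ d * hom d p s t := by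
  rw [hom, hom, Finset.mul_sum]
  refine Finset.sum_congr rfl fun i hi => ?_
  have hi' : i ≤ d := Nat.lt_succ_iff.mp (Finset.mem_range.mp hi)
  have h1 : c ^ d = c ^ (d - i) * c ^ i := by rw [← pow_add, Nat.sub_add_cancel hi']
  rw [h1, mul_pow, mul_pow]
  ring

theorem hom_cont (d : ℕ) (p : Polynomial ℂ) (t : ℂ) : Continuous fun s => hom d p s t := by
  unfold hom
  fun_prop

theorem hom_an (d : ℕ) (p : Polynomial ℂ) {s t : ℂ → ℂ} {z : ℂ} (hs : AnalyticAt ℂ s z)
    (ht : AnalyticAt ℂ t z) : AnalyticAt ℂ (fun w => hom d p (s w) (t w)) z := by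
  unfold hom
  refine Finset.analyticAt_fun_sum _ fun i _ => ?_
  exact (analyticAt_const.fun_mul (ht.fun_pow i)).fun_mul (hs.fun_pow _)

/-- degrees -/
theorem natDegree_aeval_le {D : ℕ} {p : Fin (n + 1) → Polynomial ℂ}
    (hp : ∀ i, (p i).natDegree ≤ D) {f : MvPolynomial (Fin (n + 1)) ℂ} {d : ℕ}
    (hf : f.IsHomogeneous d) : (aeval (fun i => p i ^ m) f).natDegree ≤ D * (m * d) := by
  rw [aeval_def, eval₂_eq']
  refine Polynomial.natDegree_sum_le_of_forall_le _ _ fun a ha => ?_
  refine (Polynomial.natDegree_C_mul_le _ _).trans ?_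
  refine (Polynomial.natDegree_prod_le _ _).trans ?_
  have hd : ∑ i, a i = d := by
    have := hf (mem_support_iff.mp ha)
    rw [← this, Finsupp.weight_apply, Finsupp.sum_fintype _ _ (fun _ => by simp)]
    simp
  calc ∑ i, ((p i ^ m) ^ a i).natDegree ≤ ∑ i, D * m * a i := by
        refine Finset.sum_le_sum fun i _ => ?_
        rw [← pow_mul]
        refine (Polynomial.natDegree_pow_le).trans ?_
        calc m * a i * (p i).natDegree ≤ m * a i * D := Nat.mul_le_mul_left _ (hp i)
          _ = D * m * a i := by ring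
    _ = D * (m * d) := by rw [← Finset.mul_sum, hd, mul_assoc]

/-- Every rational curve gives a nonconstant map from a complex torus. -/
theorem t_nell (n r : ℕ) (X : NDat n r) (m : ℕ) (_ : 0 < m) (hd : ∀ j, X.e j ∣ m)
    (hG : X.G = 1) (hE : NEll X m) : NNoRat X m := by
  classical
  intro p q hL
  -- the degree
  obtain ⟨D, hD⟩ : ∃ D, D = Finset.univ.sup fun i => (p i).natDegree := ⟨_, rfl⟩
  have hpD : ∀ i, (p i).natDegree ≤ D := fun i => by
    rw [hD]
    exact Finset.le_sup (f := fun i => (p i).natDegree) (Finset.mem_univ i)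
  have hlead : ∃ i, (p i).coeff D ≠ 0 := by
    rcases Nat.eq_zero_or_pos D with h0 | h0
    · obtain ⟨i, hi⟩ := hL.ne 0
      refine ⟨i, ?_⟩
      rw [h0, Polynomial.coeff_zero_eq_eval_zero]
      exact hi
    · obtain ⟨i, -, hi⟩ := Finset.exists_mem_eq_sup Finset.univ Finset.univ_nonempty
        (fun i => (p i).natDegree)
      refine ⟨i, ?_⟩
      rw [hD, hi]
      change (p i).leadingCoeff ≠ 0
      intro h1
      rw [Polynomial.leadingCoeff_eq_zero] at h1
      rw [← hD, h1, Polynomial.natDegree_zero] at hi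
      omega
  have hqD : ∀ j, (q j).natDegree ≤ D * (m * X.d j / X.e j) := by
    intro j
    have h1 : q j ^ X.e j = aeval (fun i => p i ^ m) (X.F j) := by
      refine Polynomial.funext fun z => ?_
      have h2 := (hL.sol z).eqn j
      rw [Polynomial.eval_pow, h2]
      have h3 := MvPolynomial.comp_aeval_apply (f := fun i => p i ^ m) (Polynomial.aeval z)
        (X.F j)
      rw [Polynomial.coe_aeval_eq_eval] at h3
      rw [h3]
      congr 2
      funext i
      rw [Polynomial.eval_pow]
    have h2 := natDegree_aeval_le (m := m) hpD (X.hF j)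
    rw [← h1, Polynomial.natDegree_pow, ← wt_mul hd j, ← mul_assoc, mul_comm (X.e j)] at h2
    exact Nat.le_of_mul_le_mul_right h2 (X.he j)
  let H : ℂ → ℂ → (Fin (n + 1) → ℂ) × (Fin r → ℂ) := fun s t =>
    (fun i => hom D (p i) s t, fun j => hom (D * (m * X.d j / X.e j)) (q j) s t)
  have hHs0 : ∀ s t, s ≠ 0 → Sol X m (H s t).1 (H s t).2 := by
    intro s t hs
    have h1 := sol_scale hd hG (hL.sol (t / s)) (s ^ D)
    have e1 : (H s t).1 = fun i => s ^ D * (p i).eval (t / s) := by
      funext i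
      exact hom_eval (hpD i) hs t
    have e2 : (H s t).2 = fun j => (s ^ D) ^ (m * X.d j / X.e j) * (q j).eval (t / s) := by
      funext j
      rw [← pow_mul]
      exact hom_eval (hqD j) hs t
    rw [e1, e2]
    exact h1
  have hdense : Dense ({0}ᶜ : Set ℂ) := dense_compl_singleton 0
  have hcont : ∀ (f : MvPolynomial (Fin (n + 1)) ℂ) (t : ℂ),
      Continuous fun s => eval (fun i => (H s t).1 i ^ m) f := by
    intro f t
    refine (MvPolynomial.continuous_eval f).comp ?_
    exact continuous_pi fun i => (hom_cont D (p i) t).pow m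
  have hSol : ∀ s t, Sol X m (H s t).1 (H s t).2 := by
    intro s t
    refine ⟨fun f hf => ?_, fun j => ?_, ?_⟩
    · have h1 : (fun s => eval (fun i => (H s t).1 i ^ m) f) = fun _ => 0 :=
        Continuous.ext_on hdense (hcont f t) continuous_const
          fun s hs => (hHs0 s t hs).mem f hf
      exact congrFun h1 s
    · have h1 : (fun s => (H s t).2 j ^ X.e j) = fun s => eval (fun i => (H s t).1 i ^ m) (X.F j) :=
        Continuous.ext_on hdense ((hom_cont _ (q j) t).pow _) (hcont _ t)
          fun s hs => (hHs0 s t hs).eqn j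
      exact congrFun h1 s
    · rw [hG, map_one]
      exact one_ne_zero
  have hne : ∀ s t, s ≠ 0 ∨ t ≠ 0 → (H s t).1 ≠ 0 := by
    intro s t hst h0
    by_cases hs : s = 0
    · subst hs
      have ht : t ≠ 0 := by
        rcases hst with h | h
        · exact absurd rfl h
        · exact h
      obtain ⟨i, hi⟩ := hlead
      have h1 : hom D (p i) 0 t = 0 := congrFun h0 i
      rw [hom_zero] at h1
      exact mul_ne_zero hi (pow_ne_zero _ ht) h1
    · obtain ⟨i, hi⟩ := hL.ne (t / s)
      have h1 : hom D (p i) s t = 0 := congrFun h0 i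
      rw [hom_eval (hpD i) hs] at h1
      exact mul_ne_zero (pow_ne_zero _ hs) hi h1
  have hHs : ∀ c s t, c ≠ 0 → NSame X m (H (c * s) (c * t)) (H s t) := by
    intro c s t hc
    refine ⟨(c ^ D)⁻¹, inv_ne_zero (pow_ne_zero _ hc), fun i => ?_, fun j => ?_⟩
    · change hom D (p i) s t = (c ^ D)⁻¹ * hom D (p i) (c * s) (c * t)
      rw [hom_smul, ← mul_assoc, inv_mul_cancel₀ (pow_ne_zero _ hc), one_mul]
    · change hom (D * (m * X.d j / X.e j)) (q j) s t = (c ^ D)⁻¹ ^ (m * X.d j / X.e j) *
        hom (D * (m * X.d j / X.e j)) (q j) (c * s) (c * t)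
      rw [hom_smul, pow_mul, inv_pow, ← mul_assoc,
        inv_mul_cancel₀ (pow_ne_zero _ (pow_ne_zero _ hc)), one_mul]
  have hHan : ∀ (s t : ℂ → ℂ) (z : ℂ), AnalyticAt ℂ s z → AnalyticAt ℂ t z →
      AnalyticAt ℂ (fun w => H (s w) (t w)) z := by
    intro s t z hs ht
    refine AnalyticAt.prod ?_ ?_
    · rw [analyticAt_pi_iff]
      exact fun i => hom_an D (p i) hs ht
    · rw [analyticAt_pi_iff]
      exact fun j => hom_an _ (q j) hs ht
  have hH1 : ∀ t i, (H 1 t).1 i = (p i).eval t := by
    intro t i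
    change hom D (p i) 1 t = _
    rw [hom_eval (hpD i) one_ne_zero, one_pow, one_mul, div_one]
  let L : PeriodPair := ⟨1, Complex.I, by
    have := Complex.basisOneI.linearIndependent
    rwa [Complex.coe_basisOneI] at this⟩
  let f : ℂ → (Fin (n + 1) → ℂ) × (Fin r → ℂ) := fun z =>
    if z ∈ L.lattice then H 0 1 else H 1 (℘[L] z)
  have hf0 : ∀ z, z ∈ L.lattice → f z = H 0 1 := fun z hz => if_pos hz
  have hf1 : ∀ z, z ∉ L.lattice → f z = H 1 (℘[L] z) := fun z hz => if_neg hz
  have hper : ∀ l ∈ L.lattice, ∀ z, f (z + l) = f z := by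
    intro l hl z
    have h5 : z + l ∈ L.lattice ↔ z ∈ L.lattice := by
      constructor
      · intro h
        have := L.lattice.sub_mem h hl
        rwa [add_sub_cancel_right] at this
      · intro h
        exact L.lattice.add_mem h hl
    by_cases hz : z ∈ L.lattice
    · rw [hf0 _ hz, hf0 _ (h5.2 hz)]
    · rw [hf1 _ hz, hf1 _ (fun h => hz (h5.1 h)), L.weierstrassP_add_coe z ⟨l, hl⟩]
  have hT : TMap X m L.ω₁ L.ω₂ f := by
    refine ⟨fun z => ?_, fun z => ?_, fun z => ?_, fun z => ?_, fun z => ?_⟩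
    · by_cases hz : z ∈ L.lattice
      · rw [hf0 _ hz]
        exact hne 0 1 (Or.inr one_ne_zero)
      · rw [hf1 _ hz]
        exact hne 1 _ (Or.inl one_ne_zero)
    · by_cases hz : z ∈ L.lattice
      · rw [hf0 _ hz]
        exact hSol _ _
      · rw [hf1 _ hz]
        exact hSol _ _
    · by_cases hz : z ∈ L.lattice
      · let a' : ℂ → ℂ := fun w => (w - z) ^ 2
        let c : ℂ → ℂ := fun w => (w - z) ^ 2 * ℘[L - z] w + 1 - (w - z) ^ 2 / z ^ 2
        have ha : AnalyticAt ℂ a' z := by
          change AnalyticAt ℂ (fun w => (w - z) ^ 2) z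
          fun_prop
        have hc : AnalyticAt ℂ c z := by
          have h1 : AnalyticAt ℂ ℘[L - z] z := L.analyticAt_weierstrassPExcept z
          have h2 : AnalyticAt ℂ (fun w : ℂ => (w - z) ^ 2 / z ^ 2) z := by
            have : AnalyticAt ℂ (fun w : ℂ => (w - z) ^ 2 * (z ^ 2)⁻¹) z := by fun_prop
            simpa only [div_eq_mul_inv] using this
          change AnalyticAt ℂ (fun w => (w - z) ^ 2 * ℘[L - z] w + 1 - (w - z) ^ 2 / z ^ 2) z
          fun_prop
        refine ⟨fun w => H (a' w) (c w), hHan a' c z ha hc, ?_⟩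
        filter_upwards [L.compl_lattice_sdiff_singleton_mem_nhds z] with w hw
        by_cases hwz : w = z
        · subst hwz
          have h1 : a' w = 0 := by simp [a']
          have h2 : c w = 1 := by simp [c]
          rw [h1, h2, hf0 _ hz]
          exact nsame_refl _
        · have hwL : w ∉ L.lattice := fun h => hw ⟨h, hwz⟩
          have h1 : a' w ≠ 0 := pow_ne_zero 2 (sub_ne_zero.mpr hwz)
          have h2 : c w = a' w * ℘[L] w := by
            have := L.ite_eq_one_sub_sq_mul_weierstrassP z hz w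
            rw [if_neg hwz] at this
            exact this.symm
          rw [hf1 _ hwL, h2]
          have h3 := hHs (a' w) 1 (℘[L] w) h1
          rwa [mul_one] at h3
      · refine ⟨fun w => H 1 (℘[L] w), hHan (fun _ => 1) (fun w => ℘[L] w) z
          analyticAt_const (L.analyticOnNhd_weierstrassP z hz), ?_⟩
        have hopen : ((L.lattice : Set ℂ)ᶜ) ∈ 𝓝 z := L.isClosed_lattice.isOpen_compl.mem_nhds hz
        filter_upwards [hopen] with w hw
        rw [hf1 _ hw]
        exact nsame_refl _
    · rw [hper _ L.ω₁_mem_lattice]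
      exact nsame_refl _
    · rw [hper _ L.ω₂_mem_lattice]
      exact nsame_refl _
  have hconst := hE L.ω₁ L.ω₂ L.indep f hT
  have hinf := infinite_range L
  -- the coordinates are proportional on the range
  have hR : ∀ x ∈ (℘[L] '' (L.lattice : Set ℂ)ᶜ), ∀ y ∈ (℘[L] '' (L.lattice : Set ℂ)ᶜ), ∀ i j,
      (p i).eval x * (p j).eval y = (p j).eval x * (p i).eval y := by
    rintro _ ⟨z, hz, rfl⟩ _ ⟨w, hw, rfl⟩ i j
    obtain ⟨t, -, ht, -⟩ := hconst z w
    have h1 := ht i
    have h2 := ht j
    rw [hf1 _ hz, hf1 _ hw, hH1, hH1] at h1 h2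
    rw [h1, h2]
    ring
  have hR2 : ∀ x, ∀ y ∈ (℘[L] '' (L.lattice : Set ℂ)ᶜ), ∀ i j,
      (p i).eval x * (p j).eval y = (p j).eval x * (p i).eval y := by
    intro x y hy i j
    have h1 : p i * Polynomial.C ((p j).eval y) = p j * Polynomial.C ((p i).eval y) := by
      refine Polynomial.eq_of_infinite_eval_eq _ _ (hinf.mono fun x hx => ?_)
      change Polynomial.eval x _ = Polynomial.eval x _
      rw [Polynomial.eval_mul, Polynomial.eval_mul, Polynomial.eval_C, Polynomial.eval_C]
      exact hR x hx y hy i j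
    have h2 := congrArg (Polynomial.eval x) h1
    rwa [Polynomial.eval_mul, Polynomial.eval_mul, Polynomial.eval_C, Polynomial.eval_C] at h2
  obtain ⟨x, y, i, j, hxy⟩ := hL.nonconst
  apply hxy
  have h1 : Polynomial.C ((p i).eval x) * p j = Polynomial.C ((p j).eval x) * p i := by
    refine Polynomial.eq_of_infinite_eval_eq _ _ (hinf.mono fun y hy => ?_)
    change Polynomial.eval y _ = Polynomial.eval y _
    rw [Polynomial.eval_mul, Polynomial.eval_mul, Polynomial.eval_C, Polynomial.eval_C]
    exact hR2 x y hy i j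
  have h2 := congrArg (Polynomial.eval y) h1
  rwa [Polynomial.eval_mul, Polynomial.eval_mul, Polynomial.eval_C, Polynomial.eval_C] at h2

end Pool.Agent.Y625.FN
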